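import Mathlib

/-!
# The path stabbing number does not have finite obstacle size

For every `N` we give a finite point set (two concentric regular `2t`-gons whose radii are almost
equal) whose path stabbing number is at least five, although every subset with at most `N` points
has path stabbing number at most four.
-/

namespace Pool.Agent.Results.MP_da61b8_co.UnboundedObstacles

open Real

/-- Points of the Euclidean plane. -/
abbrev Pt := ℝ × ℝ

/-- Straight lines of the plane: solution sets of `a x + b y = c` with `(a, b) ≠ (0, 0)`. -/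
def IsLine (ℓ : Set Pt) : Prop :=
  ∃ a b c : ℝ, (a ≠ 0 ∨ b ≠ 0) ∧ ℓ = {p | a * p.1 + b * p.2 = c}

/-- The line `ℓ` stabs the closed segment `[p, q]`: they meet in a single point, which lies in
the relative interior of the segment. -/
def Stabs (ℓ : Set Pt) (p q : Pt) : Prop :=
  ∃ z ∈ openSegment ℝ p q, ℓ ∩ segment ℝ p q = {z}

/-- The edges of the path that visits the points of the list `l` in this order, each given by
its pair of endpoints. -/
def pathEdges (l : List Pt) : List (Pt × Pt) := l.zip l.tail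

open Classical in
/-- The number of segments of the family `E` stabbed by `ℓ`. -/
noncomputable def stabCount (ℓ : Set Pt) (E : List (Pt × Pt)) : ℕ :=
  E.countP (fun e => decide (Stabs ℓ e.1 e.2))

/-- The stabbing number of a family of segments: the maximum over all lines. -/
noncomputable def stabbingNumber (E : List (Pt × Pt)) : ℕ :=
  sSup {n | ∃ ℓ : Set Pt, IsLine ℓ ∧ stabCount ℓ E = n}

/-- `l` is a spanning path of `S`: an ordering of all the points of `S`. -/
def IsSpanningPath (S : Finset Pt) (l : List Pt) : Prop := l.Nodup ∧ l.toFinset = S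

/-- `PATHSTAB(S)`: the minimum stabbing number of a spanning path of `S`. -/
noncomputable def pathStab (S : Finset Pt) : ℕ :=
  sInf {n | ∃ l : List Pt, IsSpanningPath S l ∧ stabbingNumber (pathEdges l) = n}

/-- `S` is an obstacle for the property `PATHSTAB < k`. -/
def IsObstacle (k : ℕ) (S : Finset Pt) : Prop :=
  k ≤ pathStab S ∧ ∀ T : Finset Pt, T ⊂ S → pathStab T < k

/-- `PATHSTAB` has finite obstacle size. -/
def FiniteObstacleSize : Prop :=
  ∀ k : ℕ, 1 ≤ k → ∃ N : ℕ, ∀ S : Finset Pt, IsObstacle k S → S.card ≤ N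

/-! ### Sums over consecutive pairs of a list -/

/-- sum of a weight over the consecutive pairs of a list -/
def esum {α M : Type*} [AddCommMonoid M] (w : α → α → M) : List α → M
  | [] => 0
  | [_] => 0
  | a :: b :: l => w a b + esum w (b :: l)

/-- number of changes of a two-valued function along a list -/
def chg {α : Type*} (Q : α → Bool) (l : List α) : ℕ :=
  esum (fun a b => if Q a = Q b then 0 else 1) l

section lists

variable {α : Type*}

@[simp] lemma esum_nil {M : Type*} [AddCommMonoid M] (w : α → α → M) : esum w [] = 0 := rfl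
@[simp] lemma esum_single {M : Type*} [AddCommMonoid M] (w : α → α → M) (a : α) :
    esum w [a] = 0 := rfl
@[simp] lemma esum_cons {M : Type*} [AddCommMonoid M] (w : α → α → M) (a b : α) (l : List α) :
    esum w (a :: b :: l) = w a b + esum w (b :: l) := rfl

lemma esum_sum {ι : Type*} (s : Finset ι) (w : ι → α → α → ℕ) (l : List α) :
    ∑ k ∈ s, esum (w k) l = esum (fun a b => ∑ k ∈ s, w k a b) l := by
  induction l with
  | nil => simp
  | cons a l ih =>
    cases l with
    | nil => simp
    | cons b l =>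
      simp only [esum_cons, Finset.sum_add_distrib]
      rw [ih]

lemma esum_pair_sum (g : α → ℤ) (l : List α) (a b : α) :
    esum (fun p q => g p + g q) (a :: (l ++ [b])) = g a + 2 * (l.map g).sum + g b := by
  induction l generalizing a with
  | nil => simp
  | cons c l ih =>
    simp only [List.cons_append, esum_cons, ih, List.map_cons, List.sum_cons]
    ring

lemma esum_add (w v : α → α → ℤ) (l : List α) :
    esum (fun a b => w a b + v a b) l = esum w l + esum v l := by
  induction l with
  | nil => simp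
  | cons a l ih =>
    cases l with
    | nil => simp
    | cons b l => simp only [esum_cons, ih]; ring

lemma esum_congr_chain {M : Type*} [AddCommMonoid M] (w v : α → α → M) (R : α → α → Prop)
    (h : ∀ a b, R a b → w a b = v a b) (l : List α) (hl : l.IsChain R) :
    esum w l = esum v l := by
  induction l with
  | nil => simp
  | cons a l ih =>
    cases l with
    | nil => simp
    | cons b l =>
      rw [List.isChain_cons_cons] at hl
      simp only [esum_cons, ih hl.2, h a b hl.1]

/-- If every weight is at least one and the total is at most the number of pairs, then all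
weights are equal to one. -/
lemma chain_one (w : α → α → ℕ) (l : List α) (a : α)
    (h1 : (a :: l).IsChain (fun p q => 1 ≤ w p q)) :
    l.length ≤ esum w (a :: l) ∧
      (esum w (a :: l) ≤ l.length → (a :: l).IsChain (fun p q => w p q = 1)) := by
  induction l generalizing a with
  | nil => simp
  | cons b l ih =>
    rw [List.isChain_cons_cons] at h1
    obtain ⟨i1, i2⟩ := ih b h1.2
    refine ⟨?_, fun h => ?_⟩
    · simp only [esum_cons, List.length_cons]; omega
    · simp only [esum_cons, List.length_cons] at h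
      rw [List.isChain_cons_cons]
      exact ⟨by omega, i2 (by omega)⟩

lemma chg_snoc (Q : α → Bool) (l : List α) (a b : α) :
    chg Q (a :: (l ++ [b])) ≤ chg Q (a :: l) + 1 := by
  unfold chg
  induction l generalizing a with
  | nil => simp; split_ifs <;> simp
  | cons c l ih =>
    have := ih c
    simp only [List.cons_append, esum_cons]
    omega

lemma chg_parity (Q : α → Bool) (l : List α) (a b : α) :
    (chg Q (a :: (l ++ [b]))) % 2 = if Q a = Q b then 0 else 1 := by
  unfold chg
  induction l generalizing a with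
  | nil => simp; split_ifs <;> simp
  | cons c l ih =>
    have := ih c
    simp only [List.cons_append, esum_cons]
    rcases hQa : Q a <;> rcases hQb : Q b <;> rcases hQc : Q c <;>
      simp only [hQb, hQc] at this ⊢ <;> simp at this ⊢ <;> omega

lemma chg_closed_le (Q : α → Bool) (l : List α) (a : α) (h : chg Q (a :: l) ≤ 4) :
    chg Q (a :: (l ++ [a])) ≤ 4 := by
  have h1 := chg_snoc Q l a a
  have h2 := chg_parity Q l a a
  simp at h2
  omega

lemma chg_zero (Q : α → Bool) (l : List α) (a : α) (h : chg Q (a :: l) = 0) :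
    ∀ b ∈ a :: l, Q b = Q a := by
  induction l generalizing a with
  | nil => intro b hb; simp at hb; rw [hb]
  | cons c l ih =>
    unfold chg at h
    simp only [esum_cons, Nat.add_eq_zero_iff] at h
    have hac : Q a = Q c := by
      by_contra hne
      simp [hne] at h
    intro b hb
    rw [List.mem_cons] at hb
    rcases hb with rfl | hb
    · rfl
    · rw [hac]; exact ih c h.2 b hb

/-- Extraction of an alternating sublist. -/
lemma exists_alt (Q : α → Bool) (l : List α) (a : α) (m : ℕ) (h : m ≤ chg Q (a :: l)) :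
    ∃ (b : α) (y : List α), List.Sublist (b :: y) (a :: l) ∧ Q b = Q a ∧ y.length = m ∧
      (b :: y).IsChain (fun u v => Q u ≠ Q v) := by
  induction l generalizing a m with
  | nil =>
    have : m = 0 := by simpa [chg] using h
    subst this
    exact ⟨a, [], List.Sublist.refl _, rfl, rfl, by simp⟩
  | cons c l ih =>
    by_cases hac : Q a = Q c
    · have h' : m ≤ chg Q (c :: l) := by
        unfold chg at h ⊢
        simpa [hac] using h
      obtain ⟨b, y, h1, h2, h3, h4⟩ := ih c m h'
      exact ⟨b, y, h1.trans (List.sublist_cons_self _ _), by rw [h2, hac], h3, h4⟩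
    · cases m with
      | zero => exact ⟨a, [], by simp, rfl, rfl, by simp⟩
      | succ m =>
        have h' : m ≤ chg Q (c :: l) := by
          unfold chg at h ⊢
          simp only [esum_cons, hac, if_false] at h
          omega
        obtain ⟨b, y, h1, h2, h3, h4⟩ := ih c m h'
        refine ⟨a, b :: y, h1.cons_cons a, rfl, by simp [h3], ?_⟩
        rw [List.isChain_cons_cons]
        exact ⟨by rw [h2]; exact hac, h4⟩

end lists

/-! ### Lines and segments -/

/-- the side of the line `a x + b y = c` on which a point lies -/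
noncomputable def side (a b c : ℝ) (p : Pt) : Bool := decide (c < a * p.1 + b * p.2)

lemma side_ne_of_stabs (a b c : ℝ) {p q : Pt} (hpq : p ≠ q)
    (h : Stabs {p | a * p.1 + b * p.2 = c} p q) : side a b c p ≠ side a b c q := by
  obtain ⟨z, ⟨s, t, hs, ht, hst, rfl⟩, hz⟩ := h
  have hz' : s • p + t • q ∈ ({p | a * p.1 + b * p.2 = c} : Set Pt) ∩ segment ℝ p q := by
    rw [hz]; rfl
  have e : s * (a * p.1 + b * p.2 - c) + t * (a * q.1 + b * q.2 - c) = 0 := by
    have := hz'.1
    simp only [Set.mem_ofPred_eq, Prod.fst_add, Prod.smul_fst, smul_eq_mul, Prod.snd_add,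
      Prod.smul_snd] at this
    have h1 : t = 1 - s := by linarith
    subst h1
    linarith
  intro heq
  unfold side at heq
  rw [decide_eq_decide] at heq
  by_cases h0 : a * p.1 + b * p.2 - c = 0
  · have h1 : a * q.1 + b * q.2 - c = 0 := by
      rw [h0, mul_zero, zero_add] at e
      rcases mul_eq_zero.mp e with h | h
      · exact absurd h ht.ne'
      · exact h
    have hp : p ∈ ({p | a * p.1 + b * p.2 = c} : Set Pt) ∩ segment ℝ p q :=
      ⟨by simp only [Set.mem_ofPred_eq]; linarith, left_mem_segment ℝ p q⟩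
    have hq : q ∈ ({p | a * p.1 + b * p.2 = c} : Set Pt) ∩ segment ℝ p q :=
      ⟨by simp only [Set.mem_ofPred_eq]; linarith, right_mem_segment ℝ p q⟩
    rw [hz, Set.mem_singleton_iff] at hp hq
    exact hpq (hp.trans hq.symm)
  · rcases lt_or_gt_of_ne h0 with h | h
    · have : ¬ (c < a * p.1 + b * p.2) := by linarith
      rw [heq] at this
      have h2 : a * q.1 + b * q.2 - c ≤ 0 := by linarith
      nlinarith
    · have : c < a * p.1 + b * p.2 := by linarith
      rw [heq] at this
      have h2 : 0 < a * q.1 + b * q.2 - c := by linarith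
      nlinarith

lemma stabs_of_opposite (a b c : ℝ) {p q : Pt} (hp : c < a * p.1 + b * p.2)
    (hq : a * q.1 + b * q.2 < c) : Stabs {p | a * p.1 + b * p.2 = c} p q := by
  set u := a * p.1 + b * p.2 - c with hu
  set v := a * q.1 + b * q.2 - c with hv
  have hu0 : 0 < u := by linarith
  have hv0 : v < 0 := by linarith
  have huv : u - v ≠ 0 := by linarith
  have hS : (-v / (u - v)) + (u / (u - v)) = 1 := by
    field_simp
    ring
  refine ⟨(-v / (u - v)) • p + (u / (u - v)) • q, ⟨_, _, ?_, ?_, hS, rfl⟩, ?_⟩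
  · apply div_pos <;> linarith
  · apply div_pos <;> linarith
  · ext z
    simp only [Set.mem_inter_iff, Set.mem_ofPred_eq, Set.mem_singleton_iff]
    constructor
    · rintro ⟨hz, s, t, hs, ht, hst, rfl⟩
      simp only [Prod.fst_add, Prod.smul_fst, smul_eq_mul, Prod.snd_add,
        Prod.smul_snd] at hz
      have h1 : s = 1 - t := by linarith
      have e : s * u + t * v = 0 := by
        rw [hu, hv, h1]; rw [h1] at hz; linarith
      have e2 : t * (u - v) = u := by rw [h1] at e; linarith
      have ht' : t = u / (u - v) := by field_simp; linarith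
      have hs' : s = -v / (u - v) := by rw [h1, ht']; field_simp; ring
      rw [hs', ht']
    · rintro rfl
      refine ⟨?_, ⟨_, _, ?_, ?_, hS, rfl⟩⟩
      · simp only [Prod.fst_add, Prod.smul_fst, smul_eq_mul, Prod.snd_add, Prod.smul_snd]
        have h3 : c = c * ((-v / (u - v)) + (u / (u - v))) := by rw [hS, mul_one]
        have h4 : (-v / (u - v)) * u + (u / (u - v)) * v = 0 := by
          field_simp; ring
        have h5 : a * p.1 + b * p.2 = u + c := by rw [hu]; ring
        have h6 : a * q.1 + b * q.2 = v + c := by rw [hv]; ring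
        calc a * (-v / (u - v) * p.1 + u / (u - v) * q.1)
              + b * (-v / (u - v) * p.2 + u / (u - v) * q.2)
            = (-v / (u - v)) * (a * p.1 + b * p.2) + (u / (u - v)) * (a * q.1 + b * q.2) := by
              ring
          _ = ((-v / (u - v)) * u + (u / (u - v)) * v)
              + c * ((-v / (u - v)) + (u / (u - v))) := by rw [h5, h6]; ring
          _ = c := by rw [h4, hS]; ring
      · apply div_nonneg <;> linarith
      · apply div_nonneg <;> linarith

lemma stabs_symm {ℓ : Set Pt} {p q : Pt} (h : Stabs ℓ p q) : Stabs ℓ q p := by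
  obtain ⟨z, h1, h2⟩ := h
  exact ⟨z, by rw [openSegment_symm]; exact h1, by rw [segment_symm]; exact h2⟩

lemma stabCount_cons (ℓ : Set Pt) (p q : Pt) (l : List Pt) :
    stabCount ℓ (pathEdges (p :: q :: l)) =
      (open Classical in if Stabs ℓ p q then 1 else 0) + stabCount ℓ (pathEdges (q :: l)) := by
  classical
  unfold stabCount pathEdges
  simp only [List.tail_cons, List.zip_cons_cons, List.countP_cons, decide_eq_true_eq]
  rw [add_comm]

lemma stabCount_le_chg (a b c : ℝ) (l : List Pt) (hl : l.Nodup) :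
    stabCount {p | a * p.1 + b * p.2 = c} (pathEdges l) ≤ chg (side a b c) l := by
  classical
  induction l with
  | nil => simp [stabCount, pathEdges]
  | cons p l ih =>
    cases l with
    | nil => simp [stabCount, pathEdges]
    | cons q l =>
      rw [stabCount_cons]
      unfold chg
      rw [esum_cons]
      have h1 := ih (List.nodup_cons.mp hl).2
      have hpq : p ≠ q := by
        rintro rfl
        exact (List.nodup_cons.mp hl).1 (by simp)
      unfold chg at h1
      by_cases hs : Stabs {p | a * p.1 + b * p.2 = c} p q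
      · have h2 := side_ne_of_stabs a b c hpq hs
        rw [if_pos hs, if_neg h2]
        omega
      · rw [if_neg hs]
        omega

lemma chg_le_stabCount (a b c : ℝ) (l : List Pt) (hl : ∀ p ∈ l, a * p.1 + b * p.2 ≠ c) :
    chg (side a b c) l ≤ stabCount {p | a * p.1 + b * p.2 = c} (pathEdges l) := by
  classical
  induction l with
  | nil => simp [chg]
  | cons p l ih =>
    cases l with
    | nil => simp [chg]
    | cons q l =>
      rw [stabCount_cons]
      unfold chg
      rw [esum_cons]
      have h1 := ih (fun p hp => hl p (List.mem_cons_of_mem _ hp))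
      unfold chg at h1
      by_cases hs : side a b c p = side a b c q
      · rw [if_pos hs]
        omega
      · have h2 : Stabs {p | a * p.1 + b * p.2 = c} p q := by
          have hp := hl p (by simp)
          have hq := hl q (by simp)
          unfold side at hs
          rw [decide_eq_decide] at hs
          by_cases h3 : c < a * p.1 + b * p.2
          · have h4 : ¬ (c < a * q.1 + b * q.2) := fun h4 => hs ⟨fun _ => h4, fun _ => h3⟩
            exact stabs_of_opposite a b c h3 (lt_of_le_of_ne (not_lt.mp h4) hq)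
          · have h4 : c < a * q.1 + b * q.2 := by
              by_contra h4
              exact hs ⟨fun h => absurd h h3, fun h => absurd h h4⟩
            exact stabs_symm (stabs_of_opposite a b c h4 (lt_of_le_of_ne (not_lt.mp h3) hp))
        rw [if_neg hs, if_pos h2]
        omega

lemma bddAbove_stab (E : List (Pt × Pt)) :
    BddAbove {n | ∃ ℓ : Set Pt, IsLine ℓ ∧ stabCount ℓ E = n} := by
  refine ⟨E.length, ?_⟩
  rintro n ⟨ℓ, -, rfl⟩
  exact List.countP_le_length

lemma stabCount_le_stabbingNumber {ℓ : Set Pt} (hℓ : IsLine ℓ) (E : List (Pt × Pt)) :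
    stabCount ℓ E ≤ stabbingNumber E :=
  le_csSup (bddAbove_stab E) ⟨ℓ, hℓ, rfl⟩

lemma stabbingNumber_le (E : List (Pt × Pt)) (m : ℕ)
    (h : ∀ ℓ, IsLine ℓ → stabCount ℓ E ≤ m) : stabbingNumber E ≤ m := by
  apply csSup_le'
  rintro n ⟨ℓ, hℓ, rfl⟩
  exact h ℓ hℓ

/-! ### Four points of a circle -/

lemma four_pt (y1 y2 y3 y4 : ℝ) (h12 : y1 < y2) (h23 : y2 < y3) (h34 : y3 < y4)
    (h41 : y4 < y1 + 2 * π) :
    ∃ w1 w2 w3 w4 : ℝ, 0 < w1 ∧ 0 < w2 ∧ 0 < w3 ∧ 0 < w4 ∧ w1 + w3 = w2 + w4 ∧
      w1 * cos y1 + w3 * cos y3 = w2 * cos y2 + w4 * cos y4 ∧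
      w1 * sin y1 + w3 * sin y3 = w2 * sin y2 + w4 * sin y4 := by
  have pos : ∀ a b : ℝ, a < b → b < a + 2 * π → 0 < sin (b / 2 - a / 2) := by
    intro a b h1 h2
    apply sin_pos_of_pos_of_lt_pi <;> linarith
  have hc : ∀ y : ℝ, cos y = cos (y / 2) ^ 2 - sin (y / 2) ^ 2 := by
    intro y
    have := cos_two_mul (y / 2)
    rw [show 2 * (y / 2) = y by ring] at this
    have h2 := sin_sq_add_cos_sq (y / 2)
    linarith
  have hs : ∀ y : ℝ, sin y = 2 * sin (y / 2) * cos (y / 2) := by
    intro y
    have := sin_two_mul (y / 2)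
    rwa [show 2 * (y / 2) = y by ring] at this
  refine ⟨sin (y3 / 2 - y2 / 2) * sin (y4 / 2 - y3 / 2) * sin (y4 / 2 - y2 / 2),
    sin (y3 / 2 - y1 / 2) * sin (y4 / 2 - y3 / 2) * sin (y4 / 2 - y1 / 2),
    sin (y2 / 2 - y1 / 2) * sin (y4 / 2 - y2 / 2) * sin (y4 / 2 - y1 / 2),
    sin (y2 / 2 - y1 / 2) * sin (y3 / 2 - y2 / 2) * sin (y3 / 2 - y1 / 2), ?_, ?_, ?_, ?_,
    ?_, ?_, ?_⟩
  · exact mul_pos (mul_pos (pos _ _ (by linarith) (by linarith)) (pos _ _ (by linarith)
      (by linarith))) (pos _ _ (by linarith) (by linarith))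
  · exact mul_pos (mul_pos (pos _ _ (by linarith) (by linarith)) (pos _ _ (by linarith)
      (by linarith))) (pos _ _ (by linarith) (by linarith))
  · exact mul_pos (mul_pos (pos _ _ (by linarith) (by linarith)) (pos _ _ (by linarith)
      (by linarith))) (pos _ _ (by linarith) (by linarith))
  · exact mul_pos (mul_pos (pos _ _ (by linarith) (by linarith)) (pos _ _ (by linarith)
      (by linarith))) (pos _ _ (by linarith) (by linarith))
  · simp only [sin_sub]
    have e1 := sin_sq_add_cos_sq (y1 / 2)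
    have e2 := sin_sq_add_cos_sq (y2 / 2)
    have e3 := sin_sq_add_cos_sq (y3 / 2)
    have e4 := sin_sq_add_cos_sq (y4 / 2)
    generalize sin (y1 / 2) = s1 at *
    generalize sin (y2 / 2) = s2 at *
    generalize sin (y3 / 2) = s3 at *
    generalize sin (y4 / 2) = s4 at *
    generalize cos (y1 / 2) = c1 at *
    generalize cos (y2 / 2) = c2 at *
    generalize cos (y3 / 2) = c3 at *
    generalize cos (y4 / 2) = c4 at *
    have key : (s3 * c2 - c3 * s2) * (s4 * c3 - c4 * s3) * (s4 * c2 - c4 * s2)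
          * (s1 ^ 2 + c1 ^ 2)
        + (s2 * c1 - c2 * s1) * (s4 * c2 - c4 * s2) * (s4 * c1 - c4 * s1) * (s3 ^ 2 + c3 ^ 2)
        = (s3 * c1 - c3 * s1) * (s4 * c3 - c4 * s3) * (s4 * c1 - c4 * s1) * (s2 ^ 2 + c2 ^ 2)
        + (s2 * c1 - c2 * s1) * (s3 * c2 - c3 * s2) * (s3 * c1 - c3 * s1)
          * (s4 ^ 2 + c4 ^ 2) := by
      ring
    rw [e1, e2, e3, e4] at key
    linarith
  · rw [hc y1, hc y2, hc y3, hc y4]
    simp only [sin_sub]
    ring
  · rw [hs y1, hs y2, hs y3, hs y4]
    simp only [sin_sub]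
    ring

/-- A line does not separate four points of a circle alternately. -/
lemma no_alt (a b c ρ : ℝ) (y1 y2 y3 y4 : ℝ) (h12 : y1 < y2) (h23 : y2 < y3) (h34 : y3 < y4)
    (h41 : y4 < y1 + 2 * π) (h1 : c < a * (ρ * cos y1) + b * (ρ * sin y1))
    (h2 : ¬ c < a * (ρ * cos y2) + b * (ρ * sin y2))
    (h3 : c < a * (ρ * cos y3) + b * (ρ * sin y3))
    (h4 : ¬ c < a * (ρ * cos y4) + b * (ρ * sin y4)) : False := by
  obtain ⟨w1, w2, w3, w4, p1, p2, p3, p4, e0, ec, es⟩ := four_pt y1 y2 y3 y4 h12 h23 h34 h41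
  have h2' := not_lt.mp h2
  have h4' := not_lt.mp h4
  have e : w1 * (a * (ρ * cos y1) + b * (ρ * sin y1)) + w3 * (a * (ρ * cos y3)
      + b * (ρ * sin y3)) = w2 * (a * (ρ * cos y2) + b * (ρ * sin y2))
      + w4 * (a * (ρ * cos y4) + b * (ρ * sin y4)) := by
    have : w1 * (a * (ρ * cos y1) + b * (ρ * sin y1)) + w3 * (a * (ρ * cos y3)
      + b * (ρ * sin y3)) = a * ρ * (w1 * cos y1 + w3 * cos y3)
        + b * ρ * (w1 * sin y1 + w3 * sin y3) := by ring
    rw [this, ec, es]
    ring
  have i1 := mul_lt_mul_of_pos_left h1 p1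
  have i3 := mul_lt_mul_of_pos_left h3 p3
  have i2 := mul_le_mul_of_nonneg_left h2' p2.le
  have i4 := mul_le_mul_of_nonneg_left h4' p4.le
  have e5 : w1 * c + w3 * c = w2 * c + w4 * c := by
    rw [← add_mul, e0, add_mul]
  linarith

lemma no_alt' (a b c ρ : ℝ) (y1 y2 y3 y4 : ℝ) (h12 : y1 < y2) (h23 : y2 < y3) (h34 : y3 < y4)
    (h41 : y4 < y1 + 2 * π) (h1 : ¬ c < a * (ρ * cos y1) + b * (ρ * sin y1))
    (h2 : c < a * (ρ * cos y2) + b * (ρ * sin y2))
    (h3 : ¬ c < a * (ρ * cos y3) + b * (ρ * sin y3))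
    (h4 : c < a * (ρ * cos y4) + b * (ρ * sin y4)) : False := by
  refine no_alt a b c ρ y2 y3 y4 (y1 + 2 * π) h23 h34 h41 (by linarith) h2 h3 h4 ?_
  rw [cos_add_two_pi, sin_add_two_pi]
  exact h1

/-! ### The two circles -/

/-- radius of the inner circle -/
noncomputable def rin (x : ℝ) : ℝ := 1 / cos (3 * x / 2)

/-- radius of the outer circle -/
noncomputable def rout (x : ℝ) : ℝ := 1 / cos (7 * x / 2)

/-- the point at direction `d x` on the circle of radius `ρ` -/
noncomputable def onC (ρ x : ℝ) (d : ℕ) : Pt := (ρ * cos (d * x), ρ * sin (d * x))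

section radii

variable {x : ℝ} (hx : 0 < x) (h8 : 8 * x ≤ π)
include hx h8

lemma cos_in_pos : 0 < cos (3 * x / 2) :=
  cos_pos_of_mem_Ioo ⟨by linarith [pi_pos], by linarith⟩

lemma cos_out_pos : 0 < cos (7 * x / 2) :=
  cos_pos_of_mem_Ioo ⟨by linarith [pi_pos], by linarith⟩

lemma rin_pos : 0 < rin x := one_div_pos.mpr (cos_in_pos hx h8)

lemma rout_pos : 0 < rout x := one_div_pos.mpr (cos_out_pos hx h8)

lemma rin_lt_rout : rin x < rout x := by
  unfold rin rout
  apply one_div_lt_one_div_of_lt (cos_out_pos hx h8)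
  apply cos_lt_cos_of_nonneg_of_le_pi <;> linarith

lemma rout_cos_lt : rout x * cos (4 * x) < rin x := by
  have h1 : cos (4 * x) < cos (7 * x / 2) := by
    apply cos_lt_cos_of_nonneg_of_le_pi <;> linarith
  have h2 : rout x * cos (4 * x) < 1 := by
    calc rout x * cos (4 * x) < rout x * cos (7 * x / 2) :=
          mul_lt_mul_of_pos_left h1 (rout_pos hx h8)
      _ = 1 := by
          unfold rout
          have := (cos_out_pos hx h8).ne'
          field_simp
  have h3 : 1 ≤ rin x := by
    unfold rin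
    rw [le_div_iff₀ (cos_in_pos hx h8), one_mul]
    exact cos_le_one _
  linarith

end radii

section upper

variable {x : ℝ} {t : ℕ} (hx : 0 < x) (h8 : 8 * x ≤ π) (htx : t * x = π) (ht : 8 ≤ t)
variable (a b c : ℝ) (s0 : ℕ)

include hx htx in
lemma no_four (ρ : ℝ) {j0 j1 j2 j3 : ℕ} (h01 : j0 < j1) (h12 : j1 < j2) (h23 : j2 < j3)
    (h3 : j3 < 2 * t)
    (c01 : side a b c (onC ρ x (s0 + j0)) ≠ side a b c (onC ρ x (s0 + j1)))
    (c12 : side a b c (onC ρ x (s0 + j1)) ≠ side a b c (onC ρ x (s0 + j2)))
    (c23 : side a b c (onC ρ x (s0 + j2)) ≠ side a b c (onC ρ x (s0 + j3))) : False := by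
  have mono : ∀ {i j : ℕ}, i < j → ((s0 + i : ℕ) : ℝ) * x < ((s0 + j : ℕ) : ℝ) * x := by
    intro i j hij
    apply mul_lt_mul_of_pos_right _ hx
    exact_mod_cast Nat.add_lt_add_left hij s0
  have wrap : ((s0 + j3 : ℕ) : ℝ) * x < ((s0 + j0 : ℕ) : ℝ) * x + 2 * π := by
    have h : ((s0 + j3 : ℕ) : ℝ) < ((s0 + j0 : ℕ) : ℝ) + 2 * t := by
      have : s0 + j3 < s0 + j0 + 2 * t := by omega
      exact_mod_cast this
    have := mul_lt_mul_of_pos_right h hx
    nlinarith
  unfold side onC at c01 c12 c23
  simp only at c01 c12 c23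
  rw [Ne, decide_eq_decide] at c01 c12 c23
  by_cases h1 : c < a * (ρ * cos (((s0 + j0 : ℕ) : ℝ) * x)) + b * (ρ * sin (((s0 + j0 : ℕ) : ℝ) * x))
  · have h2 : ¬ c < a * (ρ * cos (((s0 + j1 : ℕ) : ℝ) * x)) + b * (ρ * sin (((s0 + j1 : ℕ) : ℝ) * x)) :=
      fun h => c01 ⟨fun _ => h, fun _ => h1⟩
    have h3 : c < a * (ρ * cos (((s0 + j2 : ℕ) : ℝ) * x)) + b * (ρ * sin (((s0 + j2 : ℕ) : ℝ) * x)) := by
      by_contra h
      exact c12 ⟨fun h' => absurd h' h2, fun h' => absurd h' h⟩
    have h4 : ¬ c < a * (ρ * cos (((s0 + j3 : ℕ) : ℝ) * x)) + b * (ρ * sin (((s0 + j3 : ℕ) : ℝ) * x)) :=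
      fun h => c23 ⟨fun _ => h, fun _ => h3⟩
    exact no_alt a b c ρ _ _ _ _ (mono h01) (mono h12) (mono h23) wrap h1 h2 h3 h4
  · have h2 : c < a * (ρ * cos (((s0 + j1 : ℕ) : ℝ) * x)) + b * (ρ * sin (((s0 + j1 : ℕ) : ℝ) * x)) := by
      by_contra h
      exact c01 ⟨fun h' => absurd h' h1, fun h' => absurd h' h⟩
    have h3 : ¬ c < a * (ρ * cos (((s0 + j2 : ℕ) : ℝ) * x)) + b * (ρ * sin (((s0 + j2 : ℕ) : ℝ) * x)) :=
      fun h => c12 ⟨fun _ => h, fun _ => h2⟩
    have h4 : c < a * (ρ * cos (((s0 + j3 : ℕ) : ℝ) * x)) + b * (ρ * sin (((s0 + j3 : ℕ) : ℝ) * x)) := by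
      by_contra h
      exact c23 ⟨fun h' => absurd h' h3, fun h' => absurd h' h⟩
    exact no_alt' a b c ρ _ _ _ _ (mono h01) (mono h12) (mono h23) wrap h1 h2 h3 h4

include hx h8 htx ht in
/-- The gap argument: with a gap of eight steps the two circles cannot be separated in the bad
way. -/
lemma bad_case {j0 j1 j2 i0 i1 i2 : ℕ} (h01 : j0 < j1) (h12 : j1 < j2) (hj : j2 < 2 * t - 7)
    (k12 : i2 < i1) (k01 : i1 < i0) (hi : i0 < 2 * t - 7)
    (c1 : side a b c (onC (rin x) x (s0 + j0)) ≠ side a b c (onC (rin x) x (s0 + j1)))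
    (c2 : side a b c (onC (rin x) x (s0 + j1)) ≠ side a b c (onC (rin x) x (s0 + j2)))
    (c3 : side a b c (onC (rin x) x (s0 + j2)) ≠ side a b c (onC (rout x) x (s0 + i0)))
    (c4 : side a b c (onC (rout x) x (s0 + i0)) ≠ side a b c (onC (rout x) x (s0 + i1)))
    (c5 : side a b c (onC (rout x) x (s0 + i1)) ≠ side a b c (onC (rout x) x (s0 + i2))) :
    False := by
  have mono : ∀ {i j : ℕ}, i < j → ((s0 + i : ℕ) : ℝ) * x < ((s0 + j : ℕ) : ℝ) * x := by
    intro i j hij
    apply mul_lt_mul_of_pos_right _ hx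
    exact_mod_cast Nat.add_lt_add_left hij s0
  have wrap : ∀ {i j : ℕ}, j < i + 2 * t →
      ((s0 + j : ℕ) : ℝ) * x < ((s0 + i : ℕ) : ℝ) * x + 2 * π := by
    intro i j hij
    have h : ((s0 + j : ℕ) : ℝ) < ((s0 + i : ℕ) : ℝ) + 2 * t := by
      have : s0 + j < s0 + i + 2 * t := by omega
      exact_mod_cast this
    have := mul_lt_mul_of_pos_right h hx
    nlinarith
  have r1 := rin_lt_rout hx h8
  have r2 := rout_cos_lt hx h8
  unfold side onC at c1 c2 c3 c4 c5
  simp only at c1 c2 c3 c4 c5
  rw [Ne, decide_eq_decide] at c1 c2 c3 c4 c5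
  set F : ℝ → ℕ → Prop := fun ρ j =>
    c < a * (ρ * cos (((s0 + j : ℕ) : ℝ) * x)) + b * (ρ * sin (((s0 + j : ℕ) : ℝ) * x)) with hF
  set γ : ℝ := ((s0 + (2 * t - 4) : ℕ) : ℝ) * x with hγ
  set G : ℝ := a * cos γ + b * sin γ with hG
  have hFG : ∀ ρ, F ρ (2 * t - 4) ↔ c < ρ * G := by
    intro ρ
    rw [hF, hG]
    simp only
    rw [← hγ, show a * (ρ * cos γ) + b * (ρ * sin γ) = ρ * (a * cos γ + b * sin γ) by ring]
  -- values at the two ends of the gap
  have e0 : ((s0 + 0 : ℕ) : ℝ) * x + 2 * π = γ + 4 * x := by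
    rw [hγ]
    have : ((s0 + (2 * t - 4) : ℕ) : ℝ) = s0 + 2 * t - 4 := by
      rw [Nat.cast_add, Nat.cast_sub (by omega)]
      push_cast
      ring
    rw [this]
    push_cast
    nlinarith
  have e1 : ((s0 + (2 * t - 8) : ℕ) : ℝ) * x = γ - 4 * x := by
    rw [hγ]
    have h1 : ((s0 + (2 * t - 4) : ℕ) : ℝ) = s0 + 2 * t - 4 := by
      rw [Nat.cast_add, Nat.cast_sub (by omega)]
      push_cast
      ring
    have h2 : ((s0 + (2 * t - 8) : ℕ) : ℝ) = s0 + 2 * t - 8 := by
      rw [Nat.cast_add, Nat.cast_sub (by omega)]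
      push_cast
      ring
    rw [h1, h2]
    ring
  have sumE : ∀ ρ, (a * (ρ * cos (((s0 + 0 : ℕ) : ℝ) * x)) + b * (ρ * sin (((s0 + 0 : ℕ) : ℝ) * x)))
      + (a * (ρ * cos (((s0 + (2 * t - 8) : ℕ) : ℝ) * x))
        + b * (ρ * sin (((s0 + (2 * t - 8) : ℕ) : ℝ) * x))) = 2 * (ρ * cos (4 * x) * G) := by
    intro ρ
    have h1 : cos (((s0 + 0 : ℕ) : ℝ) * x) = cos (γ + 4 * x) := by rw [← e0, cos_add_two_pi]
    have h2 : sin (((s0 + 0 : ℕ) : ℝ) * x) = sin (γ + 4 * x) := by rw [← e0, sin_add_two_pi]
    rw [h1, h2, e1, cos_add, cos_sub, sin_add, sin_sub, hG]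
    ring
  by_cases h0 : F (rin x) j0
  · have h1 : ¬ F (rin x) j1 := fun h => c1 ⟨fun _ => h, fun _ => h0⟩
    have h2 : F (rin x) j2 := by
      by_contra h
      exact c2 ⟨fun h' => absurd h' h1, fun h' => absurd h' h⟩
    have h3 : ¬ F (rout x) i0 := fun h => c3 ⟨fun _ => h, fun _ => h2⟩
    have h4 : F (rout x) i1 := by
      by_contra h
      exact c4 ⟨fun h' => absurd h' h3, fun h' => absurd h' h⟩
    have h5 : ¬ F (rout x) i2 := fun h => c5 ⟨fun _ => h, fun _ => h4⟩
    have g0 : F (rin x) (2 * t - 4) := by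
      by_contra h
      exact no_alt a b c (rin x) _ _ _ _ (mono h01) (mono h12) (mono (by omega : j2 < 2 * t - 4))
        (wrap (by omega : 2 * t - 4 < j0 + 2 * t)) h0 h1 h2 h
    have g1 : ¬ F (rout x) (2 * t - 4) := by
      intro h
      exact no_alt' a b c (rout x) _ _ _ _ (mono k12) (mono k01)
        (mono (by omega : i0 < 2 * t - 4)) (wrap (by omega : 2 * t - 4 < i2 + 2 * t)) h5 h4 h3 h
    have g2 : ¬ F (rout x) 0 := by
      rcases Nat.eq_zero_or_pos i2 with h | h
      · rw [← h]; exact h5
      · intro h'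
        exact no_alt a b c (rout x) _ _ _ _ (mono h) (mono k12) (mono k01)
          (wrap (by omega : i0 < 0 + 2 * t)) h' h5 h4 h3
    have g3 : ¬ F (rout x) (2 * t - 8) := by
      rcases Nat.lt_or_ge i0 (2 * t - 8) with h | h
      · intro h'
        exact no_alt' a b c (rout x) _ _ _ _ (mono k12) (mono k01) (mono h)
          (wrap (by omega : 2 * t - 8 < i2 + 2 * t)) h5 h4 h3 h'
      · have : 2 * t - 8 = i0 := by omega
        rw [this]; exact h3
    rw [hFG] at g0 g1
    have s1 := sumE (rout x)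
    simp only [hF, not_lt] at g2 g3
    have s2 : rout x * cos (4 * x) * G ≤ c := by linarith
    have s3 := not_lt.mp g1
    have G1 : (rout x - rin x) * G < 0 := by rw [sub_mul]; linarith
    have G2 : 0 < (rin x - rout x * cos (4 * x)) * G := by rw [sub_mul]; linarith
    have G1' : G < 0 := by
      by_contra h
      have := mul_nonneg (sub_nonneg.mpr r1.le) (not_lt.mp h)
      linarith
    have G2' : 0 < G := by
      by_contra h
      have := mul_nonpos_of_nonneg_of_nonpos (sub_nonneg.mpr r2.le) (not_lt.mp h)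
      linarith
    linarith
  · have h1 : F (rin x) j1 := by
      by_contra h
      exact c1 ⟨fun h' => absurd h' h0, fun h' => absurd h' h⟩
    have h2 : ¬ F (rin x) j2 := fun h => c2 ⟨fun _ => h, fun _ => h1⟩
    have h3 : F (rout x) i0 := by
      by_contra h
      exact c3 ⟨fun h' => absurd h' h2, fun h' => absurd h' h⟩
    have h4 : ¬ F (rout x) i1 := fun h => c4 ⟨fun _ => h, fun _ => h3⟩
    have h5 : F (rout x) i2 := by
      by_contra h
      exact c5 ⟨fun h' => absurd h' h4, fun h' => absurd h' h⟩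
    have g0 : ¬ F (rin x) (2 * t - 4) := by
      intro h
      exact no_alt' a b c (rin x) _ _ _ _ (mono h01) (mono h12)
        (mono (by omega : j2 < 2 * t - 4)) (wrap (by omega : 2 * t - 4 < j0 + 2 * t)) h0 h1 h2 h
    have g1 : F (rout x) (2 * t - 4) := by
      by_contra h
      exact no_alt a b c (rout x) _ _ _ _ (mono k12) (mono k01)
        (mono (by omega : i0 < 2 * t - 4)) (wrap (by omega : 2 * t - 4 < i2 + 2 * t)) h5 h4 h3 h
    have g2 : F (rout x) 0 := by
      rcases Nat.eq_zero_or_pos i2 with h | h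
      · rw [← h]; exact h5
      · by_contra h'
        exact no_alt' a b c (rout x) _ _ _ _ (mono h) (mono k12) (mono k01)
          (wrap (by omega : i0 < 0 + 2 * t)) h' h5 h4 h3
    have g3 : F (rout x) (2 * t - 8) := by
      rcases Nat.lt_or_ge i0 (2 * t - 8) with h | h
      · by_contra h'
        exact no_alt a b c (rout x) _ _ _ _ (mono k12) (mono k01) (mono h)
          (wrap (by omega : 2 * t - 8 < i2 + 2 * t)) h5 h4 h3 h'
      · have : 2 * t - 8 = i0 := by omega
        rw [this]; exact h3
    rw [hFG] at g0 g1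
    have s1 := sumE (rout x)
    simp only [hF] at g2 g3
    have s2 : c < rout x * cos (4 * x) * G := by linarith
    have s3 := not_lt.mp g0
    have G1 : 0 < (rout x - rin x) * G := by rw [sub_mul]; linarith
    have G2 : (rin x - rout x * cos (4 * x)) * G < 0 := by rw [sub_mul]; linarith
    have G1' : 0 < G := by
      by_contra h
      have := mul_nonpos_of_nonneg_of_nonpos (sub_nonneg.mpr r1.le) (not_lt.mp h)
      linarith
    have G2' : G < 0 := by
      by_contra h
      have := mul_nonneg (sub_nonneg.mpr r2.le) (not_lt.mp h)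
      linarith
    linarith

/-- going around the inner circle and back around the outer circle, leaving out seven
consecutive directions -/
noncomputable def tour (x : ℝ) (t s0 : ℕ) : List Pt :=
  (List.range (2 * t - 7)).map (fun j => onC (rin x) x (s0 + j)) ++
    (List.range (2 * t - 7)).reverse.map (fun j => onC (rout x) x (s0 + j))

include hx h8 htx ht in
lemma chg_le_four (l : List Pt) (hl : List.Sublist l (tour x t s0)) :
    chg (side a b c) l ≤ 4 := by
  by_contra hcon
  have h5 : 5 ≤ chg (side a b c) l := by omega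
  rcases l with _ | ⟨p, l⟩
  · simp [chg] at h5
  obtain ⟨q, y, hy1, -, hy3, hy4⟩ := exists_alt (side a b c) l p 5 h5
  have hY := hy1.trans hl
  unfold tour at hY
  rw [List.sublist_append_iff] at hY
  obtain ⟨Y0, Y1, hYe, hY0, hY1⟩ := hY
  rw [List.sublist_map_iff] at hY0 hY1
  obtain ⟨z0, hz0, rfl⟩ := hY0
  obtain ⟨z1, hz1, rfl⟩ := hY1
  have hlen : z0.length + z1.length = 6 := by
    have := congrArg List.length hYe
    simp only [List.length_cons, hy3, List.length_append, List.length_map] at this
    omega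
  rw [hYe] at hy4
  have sort0 : z0.Pairwise (· < ·) := List.Pairwise.sublist hz0 List.pairwise_lt_range
  have sort1 : z1.Pairwise (fun u v => v < u) := by
    refine List.Pairwise.sublist hz1 ?_
    rw [List.pairwise_reverse]
    exact List.pairwise_lt_range
  have lt0 : ∀ j ∈ z0, j < 2 * t - 7 := fun j hj => List.mem_range.mp (hz0.subset hj)
  have lt1 : ∀ j ∈ z1, j < 2 * t - 7 := fun j hj =>
    List.mem_range.mp (List.mem_reverse.mp (hz1.subset hj))
  -- at most three alternations on each circle
  have long1 : ∀ i0 i1 i2 i3 rest, z1 = i0 :: i1 :: i2 :: i3 :: rest → False := by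
    rintro i0 i1 i2 i3 rest rfl
    rw [List.isChain_append] at hy4
    have hc := hy4.2.1
    simp only [List.map_cons, List.isChain_cons_cons] at hc
    simp only [List.pairwise_cons, List.mem_cons] at sort1
    have m0 := lt1 i0 (by simp)
    exact no_four hx htx a b c s0 (rout x) (sort1.2.2.1 i3 (by simp)) (sort1.2.1 i2 (by simp))
      (sort1.1 i1 (by simp)) (by omega : i0 < 2 * t) hc.2.2.1.symm hc.2.1.symm hc.1.symm
  rcases z0 with _ | ⟨j0, _ | ⟨j1, _ | ⟨j2, _ | ⟨j3, z⟩⟩⟩⟩
  · rcases z1 with _ | ⟨i0, _ | ⟨i1, _ | ⟨i2, _ | ⟨i3, z⟩⟩⟩⟩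
    · simp at hlen
    · simp at hlen
    · simp at hlen
    · simp at hlen
    · exact long1 _ _ _ _ _ rfl
  · rcases z1 with _ | ⟨i0, _ | ⟨i1, _ | ⟨i2, _ | ⟨i3, z⟩⟩⟩⟩
    · simp at hlen
    · simp at hlen
    · simp at hlen
    · simp at hlen
    · exact long1 _ _ _ _ _ rfl
  · rcases z1 with _ | ⟨i0, _ | ⟨i1, _ | ⟨i2, _ | ⟨i3, z⟩⟩⟩⟩
    · simp at hlen
    · simp at hlen
    · simp at hlen
    · simp at hlen
    · exact long1 _ _ _ _ _ rfl
  · rcases z1 with _ | ⟨i0, _ | ⟨i1, _ | ⟨i2, _ | ⟨i3, z⟩⟩⟩⟩
    · simp at hlen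
    · simp at hlen
    · simp at hlen
    · simp only [List.map_cons, List.map_nil, List.cons_append, List.nil_append,
        List.isChain_cons_cons] at hy4
      simp only [List.pairwise_cons, List.mem_cons] at sort0 sort1
      exact bad_case hx h8 htx ht a b c s0 (sort0.1 j1 (by simp)) (sort0.2.1 j2 (by simp))
        (lt0 j2 (by simp)) (sort1.2.1 i2 (by simp)) (sort1.1 i1 (by simp)) (lt1 i0 (by simp))
        hy4.1 hy4.2.1 hy4.2.2.1 hy4.2.2.2.1 hy4.2.2.2.2.1
    · exact long1 _ _ _ _ _ rfl
  · rw [List.isChain_append] at hy4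
    have hc := hy4.1
    simp only [List.map_cons, List.isChain_cons_cons] at hc
    simp only [List.pairwise_cons, List.mem_cons] at sort0
    have m0 := lt0 j3 (by simp)
    exact no_four hx htx a b c s0 (rin x) (sort0.1 j1 (by simp)) (sort0.2.1 j2 (by simp))
      (sort0.2.2.1 j3 (by simp)) (by omega : j3 < 2 * t) hc.1 hc.2.1 hc.2.2.1

end upper

/-- A set of points on a tour that leaves out seven consecutive directions has path stabbing
number at most four. -/
lemma pathStab_le_four {x : ℝ} {t : ℕ} (hx : 0 < x) (h8 : 8 * x ≤ π) (htx : t * x = π)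
    (ht : 8 ≤ t) (s0 : ℕ) (T : Finset Pt) (hT : ∀ p ∈ T, p ∈ tour x t s0) :
    pathStab T ≤ 4 := by
  classical
  set l : List Pt := ((tour x t s0).filter (fun p => decide (p ∈ T))).dedup with hl
  have hnd : l.Nodup := List.nodup_dedup _
  have hmem : l.toFinset = T := by
    ext p
    simp only [hl, List.mem_toFinset, List.mem_dedup, List.mem_filter, decide_eq_true_eq]
    exact ⟨fun h => h.2, fun h => ⟨hT p h, h⟩⟩
  have hsub : List.Sublist l (tour x t s0) :=
    (List.dedup_sublist _).trans List.filter_sublist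
  have hle : stabbingNumber (pathEdges l) ≤ 4 := by
    apply stabbingNumber_le
    rintro ℓ ⟨a, b, c, -, rfl⟩
    exact (stabCount_le_chg a b c l hnd).trans (chg_le_four hx h8 htx ht a b c s0 l hsub)
  have h1 : pathStab T ≤ stabbingNumber (pathEdges l) := Nat.sInf_le ⟨l, ⟨hnd, hmem⟩, rfl⟩
  exact h1.trans hle

/-! ### The lower bound -/

/-- the points of the two circles, indexed so that the point `(i, r)` is beyond exactly the
tangent lines `i, i + 1, ..., i + r` -/
noncomputable def pt (x : ℝ) (t : ℕ) (v : ZMod t × Fin 4) : Pt :=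
  onC (if v.2.val < 2 then rin x else rout x) x (2 * v.1.val + v.2.val)

lemma cos_lt_of_mid {θ y : ℝ} (h0 : 0 ≤ θ) (h1 : θ < y) (h2 : y < 2 * π - θ) :
    cos y < cos θ := by
  rcases le_or_gt y π with h | h
  · exact cos_lt_cos_of_nonneg_of_le_pi h0 h h1
  · rw [← cos_two_pi_sub y]
    apply cos_lt_cos_of_nonneg_of_le_pi h0 <;> linarith

lemma lt_cos_of_abs {θ y : ℝ} (h1 : |y| < θ) (h2 : θ ≤ π) : cos θ < cos y := by
  rw [← cos_abs y]
  exact cos_lt_cos_of_nonneg_of_le_pi (abs_nonneg y) h2 h1

section lower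

variable {x : ℝ} {t : ℕ} [NeZero t] (hx : 0 < x) (h8 : 8 * x ≤ π) (htx : t * x = π)
  (ht : 8 ≤ t)

include htx in
lemma pt_val (k : ZMod t) (v : ZMod t × Fin 4) :
    cos (2 * k.val * x) * (pt x t v).1 + sin (2 * k.val * x) * (pt x t v).2 =
      (if v.2.val < 2 then rin x else rout x) *
        cos ((2 * ((k - v.1).val : ℝ) - (v.2.val : ℝ)) * x) := by
  have hk : (v.1.val + (k - v.1).val) % t = k.val := by
    rw [← ZMod.val_add]
    congr 1
    ring
  have h1 : v.1.val < t := ZMod.val_lt _
  have h2 : (k - v.1).val < t := ZMod.val_lt _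
  have key : cos (2 * (k.val : ℝ) * x - ((2 * v.1.val + v.2.val : ℕ) : ℝ) * x) =
      cos ((2 * ((k - v.1).val : ℝ) - (v.2.val : ℝ)) * x) := by
    rcases Nat.lt_or_ge (v.1.val + (k - v.1).val) t with h | h
    · rw [Nat.mod_eq_of_lt h] at hk
      rw [← hk]
      push_cast
      ring_nf
    · have h3 : v.1.val + (k - v.1).val = k.val + t := by
        rw [Nat.mod_eq_sub_mod h, Nat.mod_eq_of_lt (by omega)] at hk
        omega
      have h4 : (k.val : ℝ) = v.1.val + (k - v.1).val - t := by
        have : ((v.1.val + (k - v.1).val : ℕ) : ℝ) = ((k.val + t : ℕ) : ℝ) := by rw [h3]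
        push_cast at this
        linarith
      rw [h4]
      have h5 : 2 * ((v.1.val : ℝ) + (k - v.1).val - t) * x
          - ((2 * v.1.val + v.2.val : ℕ) : ℝ) * x =
          (2 * ((k - v.1).val : ℝ) - (v.2.val : ℝ)) * x - 2 * π := by
        rw [← htx]
        push_cast
        ring
      rw [h5, cos_sub_two_pi]
  rw [← key, cos_sub]
  unfold pt onC
  simp only
  ring

include hx h8 htx in
lemma pt_pos (k : ZMod t) (v : ZMod t × Fin 4) (h : (k - v.1).val ≤ v.2.val) :
    1 < cos (2 * k.val * x) * (pt x t v).1 + sin (2 * k.val * x) * (pt x t v).2 := by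
  rw [pt_val htx]
  have c0 := cos_in_pos hx h8
  have c1 := cos_out_pos hx h8
  obtain ⟨i, r⟩ := v
  simp only at h ⊢
  have hs : ((k - i).val : ℝ) ≤ (r.val : ℝ) := by exact_mod_cast h
  have hs0 : (0 : ℝ) ≤ ((k - i).val : ℝ) := Nat.cast_nonneg _
  have hr : r.val < 4 := r.isLt
  have habs : |(2 * ((k - i).val : ℝ) - (r.val : ℝ)) * x| ≤ (r.val : ℝ) * x := by
    rw [abs_le]
    constructor <;> nlinarith
  split_ifs with h2
  · unfold rin
    rw [div_mul_eq_mul_div, one_mul, lt_div_iff₀ c0, one_mul]
    apply lt_cos_of_abs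
    · have h3 : (r.val : ℝ) ≤ 1 := by
        have : r.val ≤ 1 := by omega
        exact_mod_cast this
      nlinarith
    · linarith
  · unfold rout
    rw [div_mul_eq_mul_div, one_mul, lt_div_iff₀ c1, one_mul]
    apply lt_cos_of_abs
    · have h3 : (r.val : ℝ) ≤ 3 := by
        have : r.val ≤ 3 := by omega
        exact_mod_cast this
      nlinarith
    · linarith

include hx h8 htx in
lemma pt_neg (k : ZMod t) (v : ZMod t × Fin 4) (h : ¬ (k - v.1).val ≤ v.2.val) :
    cos (2 * k.val * x) * (pt x t v).1 + sin (2 * k.val * x) * (pt x t v).2 < 1 := by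
  rw [pt_val htx]
  have c0 := cos_in_pos hx h8
  have c1 := cos_out_pos hx h8
  obtain ⟨i, r⟩ := v
  simp only at h ⊢
  have hlt : (k - i).val < t := ZMod.val_lt _
  have hs : (r.val : ℝ) + 1 ≤ ((k - i).val : ℝ) := by
    have : r.val + 1 ≤ (k - i).val := by omega
    exact_mod_cast this
  have hst : ((k - i).val : ℝ) + 1 ≤ (t : ℝ) := by exact_mod_cast hlt
  have hr : r.val < 4 := r.isLt
  have hlow : ((r.val : ℝ) + 2) * x ≤ (2 * ((k - i).val : ℝ) - (r.val : ℝ)) * x := by
    apply mul_le_mul_of_nonneg_right _ hx.le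
    linarith
  have hup : (2 * ((k - i).val : ℝ) - (r.val : ℝ)) * x ≤ 2 * π - ((r.val : ℝ) + 2) * x := by
    rw [← htx]
    nlinarith
  split_ifs with h2
  · unfold rin
    rw [div_mul_eq_mul_div, one_mul, div_lt_iff₀ c0, one_mul]
    have h3 : (0 : ℝ) ≤ (r.val : ℝ) := Nat.cast_nonneg _
    have h4 : 3 * x / 2 < ((r.val : ℝ) + 2) * x := by nlinarith
    apply cos_lt_of_mid <;> linarith
  · unfold rout
    rw [div_mul_eq_mul_div, one_mul, div_lt_iff₀ c1, one_mul]
    have h3 : (2 : ℝ) ≤ (r.val : ℝ) := by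
      have : 2 ≤ r.val := by omega
      exact_mod_cast this
    have h4 : 7 * x / 2 < ((r.val : ℝ) + 2) * x := by nlinarith
    apply cos_lt_of_mid <;> linarith

/-- the point `v` is beyond the line `k` -/
def bey (t : ℕ) (k : ZMod t) (v : ZMod t × Fin 4) : Bool := decide ((k - v.1).val ≤ v.2.val)

include hx h8 htx in
lemma side_pt (k : ZMod t) (v : ZMod t × Fin 4) :
    side (cos (2 * k.val * x)) (sin (2 * k.val * x)) 1 (pt x t v) = bey t k v := by
  unfold side bey
  rw [decide_eq_decide]
  constructor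
  · intro h
    by_contra h'
    have := pt_neg hx h8 htx k v h'
    linarith
  · exact pt_pos hx h8 htx k v

include ht in
lemma sum_bey (v : ZMod t × Fin 4) :
    ∑ k : ZMod t, (if bey t k v = true then 1 else 0) = v.2.val + 1 := by
  have h1 : ∑ k : ZMod t, (if bey t k v = true then 1 else 0) =
      ∑ k : ZMod t, (if k.val ≤ v.2.val then 1 else 0) := by
    rw [← Equiv.sum_comp (Equiv.subRight v.1)
      (fun k : ZMod t => if k.val ≤ v.2.val then (1 : ℕ) else 0)]
    apply Finset.sum_congr rfl
    intro k _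
    simp [bey]
  rw [h1, ← Finset.card_filter]
  rw [← Finset.card_image_of_injective _ (ZMod.val_injective t)]
  have : (Finset.univ.filter (fun k : ZMod t => k.val ≤ v.2.val)).image ZMod.val =
      Finset.range (v.2.val + 1) := by
    ext n
    simp only [Finset.mem_image, Finset.mem_filter, Finset.mem_univ, true_and, Finset.mem_range]
    constructor
    · rintro ⟨k, hk, rfl⟩
      omega
    · intro hn
      have hr : v.2.val < 4 := v.2.isLt
      have hv : ((n : ZMod t)).val = n := ZMod.val_cast_of_lt (by omega)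
      exact ⟨(n : ZMod t), by rw [hv]; omega, hv⟩
  rw [this, Finset.card_range]

/-- the number of tangent lines that separate two of the points -/
def sepN (t : ℕ) [NeZero t] (u v : ZMod t × Fin 4) : ℕ :=
  ∑ k : ZMod t, (if bey t k u = bey t k v then 0 else 1)

include ht in
lemma sepN_pos {u v : ZMod t × Fin 4} (huv : u ≠ v) : 1 ≤ sepN t u v := by
  by_contra hcon
  have h0 : sepN t u v = 0 := by omega
  unfold sepN at h0
  rw [Finset.sum_eq_zero_iff] at h0
  have hall : ∀ k : ZMod t, bey t k u = bey t k v := by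
    intro k
    by_contra hne
    have := h0 k (Finset.mem_univ k)
    rw [if_neg hne] at this
    exact one_ne_zero this
  have hr : u.2.val = v.2.val := by
    have h1 := sum_bey ht u
    have h2 := sum_bey ht v
    have h3 : ∑ k : ZMod t, (if bey t k u = true then 1 else 0) =
        ∑ k : ZMod t, (if bey t k v = true then 1 else 0) := by
      apply Finset.sum_congr rfl
      intro k _
      rw [hall k]
    omega
  have e1 := hall u.1
  have e2 := hall v.1
  unfold bey at e1 e2
  rw [decide_eq_decide] at e1 e2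
  have f1 : (u.1 - v.1).val ≤ v.2.val := e1.mp (by simp)
  have f2 : (v.1 - u.1).val ≤ u.2.val := e2.mpr (by simp)
  have hu : u.1 = v.1 := by
    by_contra hne
    have hne' : u.1 - v.1 ≠ 0 := sub_ne_zero.mpr hne
    have h3 : (v.1 - u.1).val = t - (u.1 - v.1).val := by
      rw [← neg_sub u.1 v.1, ZMod.neg_val, if_neg hne']
    have h4 : (u.1 - v.1).val < t := ZMod.val_lt _
    have h5 := u.2.isLt
    omega
  exact huv (Prod.ext hu (Fin.ext hr))

include hx h8 htx ht in
lemma pt_injective : Function.Injective (pt x t) := by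
  intro u v huv
  by_contra hne
  have h1 := sepN_pos ht hne
  have h2 : sepN t u v = 0 := by
    unfold sepN
    apply Finset.sum_eq_zero
    intro k _
    rw [if_pos]
    rw [← side_pt hx h8 htx, ← side_pt hx h8 htx, huv]
  omega

include ht in
/-- Two points separated by exactly one tangent line have adjacent ranks. -/
lemma rank_of_sepN_one {u v : ZMod t × Fin 4} (h : sepN t u v = 1) :
    u.2.val = v.2.val + 1 ∨ v.2.val = u.2.val + 1 := by
  have h1 := sum_bey ht u
  have h2 := sum_bey ht v
  unfold sepN at h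
  have a1 : ∑ k : ZMod t, (if bey t k u = true then 1 else 0) ≤
      ∑ k : ZMod t, (if bey t k v = true then 1 else 0) +
      ∑ k : ZMod t, (if bey t k u = bey t k v then 0 else 1) := by
    rw [← Finset.sum_add_distrib]
    apply Finset.sum_le_sum
    intro k _
    rcases bey t k u <;> rcases bey t k v <;> simp
  have a2 : ∑ k : ZMod t, (if bey t k v = true then 1 else 0) ≤
      ∑ k : ZMod t, (if bey t k u = true then 1 else 0) +
      ∑ k : ZMod t, (if bey t k u = bey t k v then 0 else 1) := by
    rw [← Finset.sum_add_distrib]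
    apply Finset.sum_le_sum
    intro k _
    rcases bey t k u <;> rcases bey t k v <;> simp
  have a3 : 2 ∣ ∑ k : ZMod t, ((if bey t k u = true then 1 else 0) +
      (if bey t k v = true then 1 else 0) + (if bey t k u = bey t k v then 0 else 1)) := by
    apply Finset.dvd_sum
    intro k _
    rcases bey t k u <;> rcases bey t k v <;> simp
  rw [Finset.sum_add_distrib, Finset.sum_add_distrib, h1, h2, h] at a3
  omega

/-- weight used in the double count -/
def g (v : ZMod t × Fin 4) : ℤ := if v.2.val = 0 then 1 else if v.2.val = 1 then -1 else 0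

/-- the inner circle -/
def isIn (v : ZMod t × Fin 4) : Bool := decide (v.2.val < 2)

lemma esum_zero {α : Type*} (l : List α) : esum (fun _ _ => (0 : ℤ)) l = 0 := by
  induction l with
  | nil => rfl
  | cons a l ih =>
    cases l with
    | nil => rfl
    | cons b l => rw [esum_cons, ih]; rfl

lemma esum_cast {α : Type*} (w : α → α → ℕ) (l : List α) :
    ((esum w l : ℕ) : ℤ) = esum (fun a b => ((w a b : ℕ) : ℤ)) l := by
  induction l with
  | nil => rfl
  | cons a l ih =>
    cases l with
    | nil => rfl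
    | cons b l => rw [esum_cons, esum_cons, ← ih]; push_cast; rfl

lemma chg_map {α β : Type*} (Q : β → Bool) (f : α → β) (l : List α) :
    chg Q (l.map f) = chg (fun a => Q (f a)) l := by
  unfold chg
  induction l with
  | nil => rfl
  | cons a l ih =>
    cases l with
    | nil => rfl
    | cons b l =>
      simp only [List.map_cons, esum_cons] at ih ⊢
      rw [ih]

include ht in
/-- The combinatorial core: an ordering of all the indices has more than four changes for one
of the tangent lines. -/
lemma core (l : List (ZMod t × Fin 4)) (hnd : l.Nodup) (hall : ∀ v, v ∈ l)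
    (h4 : ∀ k : ZMod t, chg (bey t k) l ≤ 4) : False := by
  have huniv : l.toFinset = Finset.univ := by
    ext v; simp [hall v]
  have hcard : l.length = 4 * t := by
    rw [← List.toFinset_card_of_nodup hnd, huniv, Finset.card_univ, Fintype.card_prod,
      ZMod.card, Fintype.card_fin]
    ring
  rcases l with _ | ⟨v0, m⟩
  · simp at hcard
    omega
  have hm : m ≠ [] := by
    rintro rfl
    simp at hcard
    omega
  have hne : (v0 :: (m ++ [v0])).IsChain (fun p q => p ≠ q) := by
    rw [← List.cons_append, List.isChain_append]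
    refine ⟨List.Pairwise.isChain hnd, by simp, ?_⟩
    intro p hp q hq
    have hq' : q = v0 := by simpa using hq.symm
    subst hq'
    have hp' : p ∈ m := by
      have h1 : (q :: m).getLast? = m.getLast? := by
        rcases m with _ | ⟨a, m⟩
        · exact absurd rfl hm
        · simp [List.getLast?_cons_cons]
      rw [h1] at hp
      exact List.mem_of_getLast? hp
    rintro rfl
    exact (List.nodup_cons.mp hnd).1 hp'
  have h1 : (v0 :: (m ++ [v0])).IsChain (fun p q => 1 ≤ sepN t p q) :=
    hne.imp (fun p q h => sepN_pos ht h)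
  have hsum : esum (sepN t) (v0 :: (m ++ [v0])) ≤ (m ++ [v0]).length := by
    have e1 : esum (sepN t) (v0 :: (m ++ [v0])) =
        ∑ k : ZMod t, chg (bey t k) (v0 :: (m ++ [v0])) := by
      unfold chg
      rw [esum_sum]
      rfl
    rw [e1]
    calc ∑ k : ZMod t, chg (bey t k) (v0 :: (m ++ [v0])) ≤ ∑ _k : ZMod t, 4 :=
          Finset.sum_le_sum (fun k _ => chg_closed_le _ _ _ (h4 k))
      _ = 4 * t := by
          rw [Finset.sum_const, Finset.card_univ, ZMod.card, smul_eq_mul, mul_comm]
      _ = (m ++ [v0]).length := by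
          rw [← hcard]; simp
  have hone := (chain_one (sepN t) (m ++ [v0]) v0 h1).2 hsum
  have hz : esum (fun p q => (g p + g q) + (((if isIn p = isIn q then 0 else 1 : ℕ)) : ℤ))
      (v0 :: (m ++ [v0])) = 0 := by
    rw [esum_congr_chain _ (fun _ _ => (0 : ℤ)) _ _ _ hone, esum_zero]
    intro p q hpq
    have hr := rank_of_sepN_one ht hpq
    obtain ⟨i, r⟩ := p
    obtain ⟨j, s⟩ := q
    simp only at hr
    unfold g isIn
    simp only
    fin_cases r <;> fin_cases s <;> simp at hr ⊢
  rw [esum_add, esum_pair_sum, ← esum_cast] at hz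
  have hg : (g v0 + 2 * (m.map g).sum + g v0 : ℤ) = 0 := by
    have h2 : ((v0 :: m).map g).sum = 0 := by
      rw [← List.sum_toFinset _ hnd, huniv, Fintype.sum_prod_type]
      apply Finset.sum_eq_zero
      intro i _
      simp [Fin.sum_univ_four, g]
    rw [List.map_cons, List.sum_cons] at h2
    linarith
  rw [hg, zero_add] at hz
  have hc : chg isIn (v0 :: (m ++ [v0])) = 0 := by
    unfold chg
    exact_mod_cast hz
  have hconst := chg_zero isIn (m ++ [v0]) v0 hc
  have hm1 : ∀ v, v ∈ v0 :: (m ++ [v0]) := by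
    intro v
    have := hall v
    rw [← List.cons_append]
    exact List.mem_append_left _ this
  have a1 := hconst (0, 0) (hm1 _)
  have a2 := hconst (0, 2) (hm1 _)
  rw [← a2] at a1
  simp [isIn] at a1

include hx h8 htx ht in
lemma five_le_pathStab : 5 ≤ pathStab (Finset.univ.image (pt x t)) := by
  by_contra hcon
  have hne : ({n | ∃ l : List Pt, IsSpanningPath (Finset.univ.image (pt x t)) l ∧
      stabbingNumber (pathEdges l) = n} : Set ℕ).Nonempty :=
    ⟨_, (Finset.univ.image (pt x t)).toList, ⟨Finset.nodup_toList _, Finset.toList_toFinset _⟩,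
      rfl⟩
  obtain ⟨l, ⟨hnd, hS⟩, hl⟩ := Nat.sInf_mem hne
  have hl4 : stabbingNumber (pathEdges l) ≤ 4 := by
    have : stabbingNumber (pathEdges l) = pathStab (Finset.univ.image (pt x t)) := hl
    omega
  have hinj := pt_injective hx h8 htx ht
  have hmemS : ∀ p ∈ l, ∃ v, pt x t v = p := by
    intro p hp
    have : p ∈ Finset.univ.image (pt x t) := by rw [← hS]; exact List.mem_toFinset.mpr hp
    simpa using this
  obtain ⟨l', hl'⟩ : ∃ l', l' = l.map (Function.invFun (pt x t)) := ⟨_, rfl⟩
  have hback : l'.map (pt x t) = l := by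
    rw [hl', List.map_map]
    conv_rhs => rw [← List.map_id l]
    apply List.map_congr_left
    intro p hp
    obtain ⟨v, rfl⟩ := hmemS p hp
    simp [Function.leftInverse_invFun hinj v]
  have hnd' : l'.Nodup := by
    apply List.Nodup.of_map (pt x t)
    rw [hback]
    exact hnd
  have hall : ∀ v, v ∈ l' := by
    intro v
    have h1 : pt x t v ∈ l := by
      rw [← List.mem_toFinset, hS]
      exact Finset.mem_image_of_mem _ (Finset.mem_univ v)
    rw [← hback, List.mem_map] at h1
    obtain ⟨w, hw, hwv⟩ := h1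
    rwa [← hinj hwv]
  apply core ht l' hnd' hall
  intro k
  have e1 : chg (bey t k) l' =
      chg (side (cos (2 * k.val * x)) (sin (2 * k.val * x)) 1) l := by
    rw [← hback, chg_map]
    congr 1
    ext v
    rw [side_pt hx h8 htx]
  rw [e1]
  refine le_trans (chg_le_stabCount _ _ _ _ ?_) (le_trans
    (stabCount_le_stabbingNumber ⟨_, _, _, ?_, rfl⟩ _) hl4)
  · intro p hp
    obtain ⟨v, rfl⟩ := hmemS p hp
    by_cases h : (k - v.1).val ≤ v.2.val
    · exact (pt_pos hx h8 htx k v h).ne'
    · exact (pt_neg hx h8 htx k v h).ne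
  · by_contra hcon2
    push Not at hcon2
    have := sin_sq_add_cos_sq (2 * (k.val : ℝ) * x)
    rw [hcon2.1, hcon2.2] at this
    norm_num at this

end lower

/-! ### Small subsets -/

lemma onC_add_period {ρ x : ℝ} {t : ℕ} (htx : t * x = π) (d : ℕ) :
    onC ρ x (d + 2 * t) = onC ρ x d := by
  have h : ((d + 2 * t : ℕ) : ℝ) * x = d * x + 2 * π := by
    push_cast
    rw [← htx]
    ring
  unfold onC
  rw [h, cos_add_two_pi, sin_add_two_pi]

lemma onC_mod {ρ x : ℝ} {t : ℕ} (htx : t * x = π) (d : ℕ) :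
    onC ρ x (d % (2 * t)) = onC ρ x d := by
  have h : ∀ m r : ℕ, onC ρ x (r + 2 * t * m) = onC ρ x r := by
    intro m r
    induction m with
    | zero => simp
    | succ m ih =>
      rw [show r + 2 * t * (m + 1) = (r + 2 * t * m) + 2 * t by ring, onC_add_period htx, ih]
  conv_rhs => rw [← Nat.mod_add_div d (2 * t)]
  rw [h]

lemma small_subset {x : ℝ} {t N : ℕ} [NeZero t] (hx : 0 < x) (h8 : 8 * x ≤ π)
    (htx : t * x = π) (ht : t = 7 * (N + 2)) (T : Finset Pt)
    (hT : T ⊆ Finset.univ.image (pt x t)) (hN : T.card ≤ N) : pathStab T ≤ 4 := by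
  classical
  have ht8 : 8 ≤ t := by omega
  have hinj := pt_injective hx h8 htx ht8
  set dir : Pt → ℕ := fun p => (2 * (Function.invFun (pt x t) p).1.val +
    (Function.invFun (pt x t) p).2.val) % (2 * t) with hdir
  obtain ⟨b, hb, hbT⟩ : ∃ b ∈ Finset.range (N + 1), b ∉ T.image (fun p => dir p / 7) := by
    apply Finset.exists_mem_notMem_of_card_lt_card
    calc (T.image (fun p => dir p / 7)).card ≤ T.card := Finset.card_image_le
      _ ≤ N := hN
      _ < (Finset.range (N + 1)).card := by rw [Finset.card_range]; omega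
  rw [Finset.mem_range] at hb
  apply pathStab_le_four hx h8 htx ht8 (7 * b + 7) T
  intro p hp
  have hd : dir p / 7 ≠ b := by
    intro h
    exact hbT (Finset.mem_image.mpr ⟨p, hp, h⟩)
  obtain ⟨v, -, rfl⟩ := Finset.mem_image.mp (hT hp)
  have hinv : Function.invFun (pt x t) (pt x t v) = v := Function.leftInverse_invFun hinj v
  have hdv : dir (pt x t v) = (2 * v.1.val + v.2.val) % (2 * t) := by
    rw [hdir]
    simp only
    rw [hinv]
  have hlt : dir (pt x t v) < 2 * t := by
    rw [hdv]; exact Nat.mod_lt _ (by omega)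
  obtain ⟨j, hj, hjd⟩ : ∃ j, j < 2 * t - 7 ∧ ∀ ρ : ℝ, onC ρ x (7 * b + 7 + j) =
      onC ρ x (dir (pt x t v)) := by
    rcases Nat.lt_or_ge (dir (pt x t v)) (7 * b) with h | h
    · refine ⟨dir (pt x t v) + 2 * t - (7 * b + 7), by omega, fun ρ => ?_⟩
      rw [← onC_add_period htx (dir (pt x t v))]
      congr 1
      omega
    · have h7 : 7 * b + 7 ≤ dir (pt x t v) := by omega
      refine ⟨dir (pt x t v) - (7 * b + 7), by omega, fun ρ => ?_⟩
      congr 1
      omega
  have hpt : pt x t v = onC (if v.2.val < 2 then rin x else rout x) x (7 * b + 7 + j) := by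
    rw [hjd, hdv, onC_mod htx]
    rfl
  rw [hpt]
  unfold tour
  rw [List.mem_append]
  by_cases h2 : v.2.val < 2
  · left
    rw [if_pos h2]
    exact List.mem_map.mpr ⟨j, List.mem_range.mpr hj, rfl⟩
  · right
    rw [if_neg h2]
    exact List.mem_map.mpr ⟨j, List.mem_reverse.mpr (List.mem_range.mpr hj), rfl⟩

theorem negated (N : ℕ) : ∃ S : Finset Pt, 5 ≤ pathStab S ∧
    ∀ T : Finset Pt, T ⊆ S → T.card ≤ N → pathStab T < 5 := by
  obtain ⟨t, ht⟩ : ∃ t, t = 7 * (N + 2) := ⟨_, rfl⟩
  have ht8 : 8 ≤ t := by omega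
  have : NeZero t := ⟨by omega⟩
  have htpos : (0 : ℝ) < t := by exact_mod_cast (by omega : 0 < t)
  have hx : 0 < π / t := div_pos pi_pos htpos
  have htx : t * (π / t) = π := by field_simp
  have h8 : 8 * (π / t) ≤ π := by
    calc 8 * (π / t) ≤ t * (π / t) := by
          apply mul_le_mul_of_nonneg_right _ hx.le
          exact_mod_cast ht8
      _ = π := htx
  refine ⟨Finset.univ.image (pt (π / t) t), five_le_pathStab hx h8 htx ht8, ?_⟩
  intro T hT hN
  have := small_subset hx h8 htx ht T hT hN
  omega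

/-- A set with path stabbing number at least `k` contains an obstacle for `PATHSTAB < k`. -/
lemma exists_obstacle (k : ℕ) (S : Finset Pt) (hS : k ≤ pathStab S) :
    ∃ T : Finset Pt, T ⊆ S ∧ IsObstacle k T := by
  induction S using Finset.strongInduction with
  | H S ih =>
    by_cases h : ∀ T : Finset Pt, T ⊂ S → pathStab T < k
    · exact ⟨S, Finset.Subset.refl S, hS, h⟩
    · push Not at h
      obtain ⟨T, hTS, hT⟩ := h
      obtain ⟨U, hU, hUo⟩ := ih T hTS hT
      exact ⟨U, hU.trans hTS.subset, hUo⟩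

/-- **`PATHSTAB` does not have finite obstacle size.**  For every `N` there is a finite set of
points of the plane whose path stabbing number is at least five while all its subsets with at
most `N` points have path stabbing number less than five. -/
theorem result : ¬ FiniteObstacleSize ∧
    ∀ N : ℕ, ∃ S : Finset Pt, 5 ≤ pathStab S ∧
      ∀ T : Finset Pt, T ⊆ S → T.card ≤ N → pathStab T < 5 := by
  refine ⟨fun hfin => ?_, negated⟩
  obtain ⟨N, hN⟩ := hfin 5 (by norm_num)
  obtain ⟨S, hS, hsub⟩ := negated N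
  obtain ⟨T, hTS, hT⟩ := exists_obstacle 5 S hS
  have h1 := hsub T hTS (hN T hT)
  have h2 := hT.1
  omega

end Pool.Agent.Results.MP_da61b8_co.UnboundedObstacles
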